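import Mathlib
import Pool.Agent.Y552.CP.Fin

/-!
# Irreducible spaces of functionals, eigenvectors of subgroups of small index
-/

set_option autoImplicit false

namespace Pool.Agent.Helper39K9.CD

open Pool.Agent.Y552.CT Pool.Agent.Y552.CP
open Subgroup Polynomial
open scoped commutatorElement Pointwise

universe u v

variable {G : Type u} [Group G]

/-- The homomorphisms `A → ℂ` that vanish on `B`. -/
def hom (A B : Subgroup G) : Submodule ℂ (Additive A →+ ℂ) where
  carrier := {f | ∀ a : A, (a : G) ∈ B → f (Additive.ofMul a) = 0}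
  zero_mem' := fun _ _ => rfl
  add_mem' := by
    intro f g hf hg a ha
    rw [AddMonoidHom.add_apply, hf a ha, hg a ha, add_zero]
  smul_mem' := by
    intro c f hf a ha
    show c • f (Additive.ofMul a) = 0
    rw [hf a ha, smul_zero]

lemma mem_hom {A B : Subgroup G} {f : Additive A →+ ℂ} :
    f ∈ hom A B ↔ ∀ a : A, (a : G) ∈ B → f (Additive.ofMul a) = 0 := Iff.rfl

lemma hom_st (A B : Subgroup G) [A.Normal] [hB : B.Normal] : St (ac A) (hom A B) := by
  intro g f hf a ha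
  rw [ac_apply]
  refine hf _ ?_
  rw [MulAut.conjNormal_apply]
  exact hB.conj_mem _ ha _

/-- the action of `h` on functionals -/
def act (A : Subgroup G) [A.Normal] (h : G) (f : Additive A →+ ℂ) : Additive A →+ ℂ :=
  f.comp (MonoidHom.toAdditive (MulAut.conjNormal h⁻¹ : A ≃* A).toMonoidHom)

lemma act_eq (A : Subgroup G) [A.Normal] (h : G) (f : Additive A →+ ℂ) : act A h f = ac A h f := rfl

/-- nonzero invariant subspaces -/
def Invariant (A : Subgroup G) [A.Normal] (W : Submodule ℂ (Additive A →+ ℂ)) : Prop :=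
  W ≠ ⊥ ∧ ∀ h : G, ∀ f ∈ W, act A h f ∈ W

/-- irreducible subspaces -/
def Irred (A : Subgroup G) [A.Normal] (W : Submodule ℂ (Additive A →+ ℂ)) : Prop :=
  Invariant A W ∧ ∀ W' ≤ W, Invariant A W' → W' = W

/-- infinite action -/
def InfAct (A : Subgroup G) [A.Normal] (W : Submodule ℂ (Additive A →+ ℂ)) : Prop :=
  ∀ N : Subgroup G, N.FiniteIndex → ∃ h ∈ N, ∃ f ∈ W, act A h f ≠ f

/-- irreducible, with an infinite action -/
def IrrInf (A B : Subgroup G) [A.Normal] (W : Submodule ℂ (Additive A →+ ℂ)) : Prop :=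
  W ≤ hom A B ∧ Irred A W ∧ InfAct A W

/-- the smallest infinite constituent has dimension at most `n` -/
def SmallIrr (A B : Subgroup G) [A.Normal] (n : ℕ) : Prop :=
  (∃ W, IrrInf A B W) → ∃ W, IrrInf A B W ∧ Module.finrank ℂ W ≤ n

/-- existence of irreducible subspaces -/
lemma exists_irred (A : Subgroup G) [A.Normal] : ∀ (d : ℕ) (W : Submodule ℂ (Additive A →+ ℂ)),
    FiniteDimensional ℂ W → Module.finrank ℂ W = d → Invariant A W → ∃ W' ≤ W, Irred A W' := by
  intro d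
  induction d using Nat.strong_induction_on with
  | _ d ih =>
    intro W hfd hd hW
    by_cases h : ∀ W' ≤ W, Invariant A W' → W' = W
    · exact ⟨W, le_rfl, hW, h⟩
    · push Not at h
      obtain ⟨W', hle, hinv, hne⟩ := h
      have hlt : Module.finrank ℂ W' < d := by
        rw [← hd]
        exact Submodule.finrank_lt_finrank_of_lt (lt_of_le_of_ne hle hne)
      obtain ⟨W'', h1, h2⟩ := ih _ hlt W' (Submodule.finiteDimensional_of_le hle) rfl hinv
      exact ⟨W'', h1.trans hle, h2⟩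

/-- vectors of an infinite irreducible space are not fixed by subgroups of finite index -/
lemma not_fixed {A : Subgroup G} [A.Normal] {W : Submodule ℂ (Additive A →+ ℂ)} (hW : Irred A W)
    (hinf : InfAct A W) {f : Additive A →+ ℂ} (hf : f ∈ W) (hf0 : f ≠ 0) (N : Subgroup G)
    (hN : N.FiniteIndex) : ∃ n ∈ N, ac A n f ≠ f := by
  by_contra hcon
  push Not at hcon
  let X : Submodule ℂ (Additive A →+ ℂ) :=
    { carrier := {f | f ∈ W ∧ ∀ n ∈ N.normalCore, ac A n f = f}
      zero_mem' := ⟨W.zero_mem, fun n _ => map_zero _⟩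
      add_mem' := by
        rintro f g ⟨hf, hf'⟩ ⟨hg, hg'⟩
        exact ⟨W.add_mem hf hg, fun n hn => by rw [map_add, hf' n hn, hg' n hn]⟩
      smul_mem' := by
        rintro c f ⟨hf, hf'⟩
        exact ⟨W.smul_mem c hf, fun n hn => by rw [map_smul, hf' n hn]⟩ }
  have hX : X = W := by
    refine hW.2 X (fun f hf => hf.1) ⟨?_, ?_⟩
    · intro h0
      have h1 : f ∈ X := ⟨hf, fun n hn => hcon n (N.normalCore_le hn)⟩
      rw [h0, Submodule.mem_bot] at h1
      exact hf0 h1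
    · rintro g f ⟨hf, hf'⟩
      refine ⟨hW.1.2 g f hf, fun n hn => ?_⟩
      rw [act_eq, ← Module.End.mul_apply, ← map_mul]
      have e : n * g = g * (g⁻¹ * n * g) := by group
      rw [e, map_mul, Module.End.mul_apply]
      congr 1
      apply hf'
      have h2 := (inferInstance : N.normalCore.Normal).conj_mem n hn g⁻¹
      rw [inv_inv] at h2
      exact h2
  obtain ⟨n, hn, f', hf', hne⟩ := hinf N.normalCore inferInstance
  apply hne
  rw [← hX] at hf'
  exact hf'.2 n hn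

section eigen

variable {A B : Subgroup G} [A.Normal] [B.Normal]

/-- **core statement**: virtually nilpotent, or an infinite irreducible space -/
theorem core5 (hfd : FiniteDimensional ℂ (hom A B)) (hQ : Group.IsVirtuallyNilpotent (G ⧸ A))
    (hT : (Tm A (hom A B)).Normal) :
    Group.IsVirtuallyNilpotent (G ⧸ Tm A (hom A B)) ∨ ∃ W, IrrInf A B W := by
  have hA : ∀ a ∈ A, rX (hom_st A B) a = 1 := by
    intro a ha
    ext x
    rw [rX_coe, ac_of_mem' A a ha]
    rfl
  rcases exists_min (ρ := rX (hom_st A B)) Pool.Agent.Y592.CT.fix A hA hQ with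
    ⟨N, hN, k, hk⟩ | ⟨X, hX0, hX, hmin⟩
  · exact Or.inl (vn_of_aug2 (hom_st A B) hQ hT N hN hk)
  right
  set Y := X.map (hom A B).subtype with hY
  have hYfd : FiniteDimensional ℂ Y := by
    rw [hY]
    infer_instance
  have hYinv : Invariant A Y := by
    refine ⟨?_, ?_⟩
    · intro h
      obtain ⟨x, hx, hx0⟩ := Submodule.exists_mem_ne_zero_of_ne_bot hX0
      apply hx0
      have h1 : ((x : hom A B) : Additive A →+ ℂ) ∈ Y := ⟨x, hx, rfl⟩
      rw [h, Submodule.mem_bot] at h1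
      exact Subtype.ext h1
    · rintro g _ ⟨x, hx, rfl⟩
      exact ⟨rX (hom_st A B) g x, hX g x hx, rfl⟩
  obtain ⟨W, hle, hirr⟩ := exists_irred A _ Y hYfd rfl hYinv
  have hYM : Y ≤ hom A B := by
    rw [hY]
    exact Submodule.map_subtype_le _ _
  refine ⟨W, hle.trans hYM, hirr, ?_⟩
  intro N hN
  by_contra hcon
  push Not at hcon
  obtain ⟨f, hf, hf0⟩ := Submodule.exists_mem_ne_zero_of_ne_bot hirr.1.1
  obtain ⟨x, hx, hxf⟩ := hle hf
  apply hf0
  have h1 := hmin x hx ⟨N, hN, fun n hn => Subtype.ext (by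
    rw [rX_coe]
    have h2 := hcon n hn f hf
    rw [← hxf] at h2
    exact h2)⟩
  rw [← hxf, h1]
  rfl

/-- **eigenvectors from the dimension** -/
lemma eig_small {n D : ℕ} (hfd : FiniteDimensional ℂ (hom A B))
    {W : Submodule ℂ (Additive A →+ ℂ)} (hW : IrrInf A B W) (hWn : Module.finrank ℂ W ≤ n)
    (hsol : ∃ k, derivedSeries G k ≤ A) (hD : Jp n ≤ D ∨ (n ≤ D ∧ derivedSeries G 2 ≤ A)) :
    ∃ (H : Subgroup G) (f : Additive A →+ ℂ), H.index ≠ 0 ∧ H.index ≤ D ∧
      f ∈ hom A B ∧ f ≠ 0 ∧ (∀ h ∈ H, ∃ c : ℂ, ac A h f = c • f) ∧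
      ∀ N : Subgroup G, N.FiniteIndex → ∃ n ∈ N, ac A n f ≠ f := by
  obtain ⟨hle, hirr, hinf⟩ := hW
  have hst : St (ac A) W := fun g f hf => hirr.1.2 g f hf
  have hWfd : FiniteDimensional ℂ W := Submodule.finiteDimensional_of_le hle
  have hnt : Nontrivial W := Submodule.nontrivial_iff_ne_bot.2 hirr.1.1
  have hA : ∀ a ∈ A, rX hst a = 1 := by
    intro a ha
    ext x
    rw [rX_coe, ac_of_mem' A a ha]
    rfl
  have key : ∃ H : Subgroup G, H.index ≠ 0 ∧ H.index ≤ D ∧ ∃ v : W, v ≠ 0 ∧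
        ∀ g ∈ H, ∃ c : ℂ, rX hst g v = c • v := by
    rcases hD with hD | ⟨hD, hmet⟩
    · obtain ⟨k, hk⟩ := hsol
      rcases min_le_iff.1 hD with hD | hD
      · obtain ⟨H, hH0, hHi, v, hv0, hv⟩ := eig3 G W (rX hst) ⟨k, fun a ha => hA a (hk ha)⟩
        exact ⟨H, hH0, hHi.trans ((Nat.pow_le_pow_left hWn _).trans hD), v, hv0, hv⟩
      · obtain ⟨H, hH0, hHi, v, hv0, hv⟩ := Pool.Agent.Y624.CT.eig2 G W (rX hst)
          ⟨k, fun a ha => hA a (hk ha)⟩
        exact ⟨H, hH0, hHi.trans ((Jb_mono hWn).trans hD), v, hv0, hv⟩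
    · obtain ⟨H, hH0, hHi, v, hv0, hv⟩ := Pool.Agent.Y38.CT.eig G W (rX hst) (by
        intro a ha b hb
        have h1 : ⁅a, b⁆ ∈ derivedSeries G 2 := by
          rw [derivedSeries_succ, derivedSeries_one]
          exact commutator_mem_commutator ha hb
        have h2 := hA _ (hmet h1)
        rw [← map_mul, ← map_mul]
        have e : a * b = ⁅a, b⁆ * (b * a) := by
          rw [commutatorElement_def]; group
        rw [e, map_mul, h2, one_mul])
      exact ⟨H, hH0, hHi.trans (hWn.trans hD), v, hv0, hv⟩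
  obtain ⟨H, h1, h2, v, hv0, hv⟩ := key
  have hv0' : (v : Additive A →+ ℂ) ≠ 0 := fun h => hv0 (Subtype.ext h)
  refine ⟨H, v, h1, h2, hle v.2, hv0', ?_, fun N hN => not_fixed hirr hinf v.2 hv0' N hN⟩
  intro g hg
  obtain ⟨c, hc⟩ := hv g hg
  exact ⟨c, congrArg Subtype.val hc⟩

/-- **one step** -/
theorem step5 (S : Set G) (hfin : S.Finite) (hgen : closure S = ⊤)
    (hfd : FiniteDimensional ℂ (hom A B))
    (hQ : Group.IsVirtuallyNilpotent (G ⧸ A)) (hT : (Tm A (hom A B)).Normal) {n D : ℕ} (hD1 : 1 ≤ D)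
    (hs : SmallIrr A B n)
    (hsol : ∃ k, derivedSeries G k ≤ A) (hD : Jp n ≤ D ∨ (n ≤ D ∧ derivedSeries G 2 ≤ A))
    {P : G → ℂ → Prop} (hP : ∀ (t : G) (χ : ℂ) (f : Additive A →+ ℂ), f ∈ hom A B → f ≠ 0 →
      ac A t f = χ • f → P t χ) :
    Group.IsVirtuallyNilpotent (G ⧸ Tm A (hom A B)) ∨ Alt S D P := by
  rcases core5 hfd hQ hT with h | h
  · exact Or.inl h
  · right
    obtain ⟨W, hW, hWn⟩ := hs h
    obtain ⟨H, f, hH0, hHi, hfM, hf0, hev, hnt⟩ := eig_small hfd hW hWn hsol hD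
    rcases growthG Pool.Agent.Y888.CT2.aff S hfin hgen A hQ H f hH0 hHi hf0 hev hnt with
      h | ⟨t, χ, x, h1, h2, h3, h4, h5, h6⟩
    · exact Or.inl h
    · exact alt_of hD1 (hP t χ f hfM hf0 h1) h2 h3 h4 h5 h6

end eigen

end Pool.Agent.Helper39K9.CD
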