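import Mathlib
import Pool.Agent.H648R4.Nilp

/-!
# Virtual form of the criterion of P. Hall

If `Γ` is a nilpotent normal subgroup and `G / [Γ, Γ]` is virtually nilpotent, then `G` is virtually
nilpotent.
-/

set_option autoImplicit false

namespace Pool.Agent.Helper39K9.CD

open Subgroup commutatorElement
open Pool.Agent.H648R4 (it it_mono it_add it_le hall sup_comm_le)

universe u

variable {G : Type u} [Group G]

lemma it_lcs (T : Subgroup G) : ∀ m, T.lowerCentralSeries m = it T T m := by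
  intro m
  induction m with
  | zero => rfl
  | succ m ih => rw [Subgroup.lowerCentralSeries_succ, ih, it]

lemma it_lcs_add (T : Subgroup G) (k j : ℕ) :
    T.lowerCentralSeries (k + j) = it T (T.lowerCentralSeries k) j := by
  rw [it_lcs, it_add, ← it_lcs]

/-- the product of a nilpotent normal subgroup and an abelian normal subgroup -/
theorem sup_nil {K D : Subgroup G} [K.Normal] [D.Normal] (hD : ⁅D, D⁆ = ⊥) {k : ℕ}
    (hK : K.lowerCentralSeries k = ⊥) : (K ⊔ D).lowerCentralSeries (k + (k + 1)) = ⊥ := by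
  -- the image modulo `D`
  have h1 : (K ⊔ D).lowerCentralSeries k ≤ D := by
    have h2 : ((K ⊔ D).lowerCentralSeries k).map (QuotientGroup.mk' D) = ⊥ := by
      rw [Subgroup.map_lowerCentralSeries, Subgroup.map_sup, QuotientGroup.map_mk'_self, sup_bot_eq,
        ← Subgroup.map_lowerCentralSeries, hK, Subgroup.map_bot]
    rw [Subgroup.map_eq_bot_iff, QuotientGroup.ker_mk'] at h2
    exact h2
  have h2 : ∀ j, it (K ⊔ D) D j ≤ it K D j := by
    intro j
    induction j with
    | zero => exact le_rfl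
    | succ j ih =>
      show ⁅it (K ⊔ D) D j, K ⊔ D⁆ ≤ ⁅it K D j, K⁆
      refine (commutator_mono ih le_rfl).trans ?_
      rw [commutator_comm]
      refine (sup_comm_le K D (it K D j)).trans (sup_le ?_ ?_)
      · rw [commutator_comm]
      · have h3 : it K D j ≤ D := it_le K D j
        exact (commutator_mono le_rfl h3).trans (by rw [hD]; exact bot_le)
  have h3 : ∀ j, it K D (j + 1) ≤ K.lowerCentralSeries j := by
    intro j
    induction j with
    | zero => exact commutator_le_right D K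
    | succ j ih => exact commutator_mono ih le_rfl
  rw [it_lcs_add, eq_bot_iff]
  refine (it_mono h1 _).trans ((h2 _).trans ?_)
  rw [← hK]
  exact h3 k

/-- **virtual Hall criterion** -/
theorem vn_hall (Γ : Subgroup G) [Γ.Normal] {c : ℕ} (hΓ : Γ.lowerCentralSeries c = ⊥)
    (hQ : Group.IsVirtuallyNilpotent (G ⧸ ⁅Γ, Γ⁆)) : Group.IsVirtuallyNilpotent G := by
  obtain ⟨H, hHn, hH⟩ := hQ
  set π : G →* G ⧸ ⁅Γ, Γ⁆ := QuotientGroup.mk' ⁅Γ, Γ⁆ with hπ
  have hsurj : Function.Surjective π := QuotientGroup.mk'_surjective _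
  set K : Subgroup (G ⧸ ⁅Γ, Γ⁆) := H.normalCore with hK
  have hKfin : K.FiniteIndex := inferInstance
  obtain ⟨k, hk⟩ := (isNilpotent_iff_lowerCentralSeries _).1 hHn
  have hKk : K.lowerCentralSeries k = ⊥ := by
    rw [eq_bot_iff, ← hk]
    exact lowerCentralSeries_mono k H.normalCore_le
  set D : Subgroup (G ⧸ ⁅Γ, Γ⁆) := Γ.map π with hD
  have hDn : D.Normal := Subgroup.Normal.map inferInstance π hsurj
  have hDD : ⁅D, D⁆ = ⊥ := by
    rw [hD, ← Subgroup.map_commutator, hπ]
    exact QuotientGroup.map_mk'_self _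
  have h3 := sup_nil hDD hKk
  set L : Subgroup G := (K ⊔ D).comap π with hL
  have hLn : L.Normal := inferInstance
  have hNL : Γ ≤ L := by
    rw [hL, ← Subgroup.map_le_iff_le_comap]
    exact le_sup_right
  have hLk : L.lowerCentralSeries (k + (k + 1)) ≤ ⁅Γ, Γ⁆ := by
    have h4 : (L.lowerCentralSeries (k + (k + 1))).map π = ⊥ := by
      rw [map_lowerCentralSeries, hL, Subgroup.map_comap_eq_self_of_surjective hsurj, h3]
    rw [Subgroup.map_eq_bot_iff, hπ, QuotientGroup.ker_mk'] at h4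
    exact h4
  obtain ⟨m, hm⟩ := hall hNL hΓ hLk
  refine ⟨L, (isNilpotent_iff_lowerCentralSeries _).2 ⟨m, hm⟩, ?_⟩
  have h5 : (K ⊔ D).FiniteIndex := Subgroup.finiteIndex_of_le le_sup_left
  constructor
  rw [hL, Subgroup.index_comap_of_surjective _ hsurj]
  exact h5.index_ne_zero

/-- the relative version -/
theorem vn_hall_rel (Γ B : Subgroup G) [Γ.Normal] [B.Normal] {c : ℕ}
    (hΓ : Γ.lowerCentralSeries c ≤ B)
    (hQ : Group.IsVirtuallyNilpotent (G ⧸ (⁅Γ, Γ⁆ ⊔ B))) : Group.IsVirtuallyNilpotent (G ⧸ B) := by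
  set π : G →* G ⧸ B := QuotientGroup.mk' B with hπ
  have hsurj : Function.Surjective π := QuotientGroup.mk'_surjective _
  have hn : (Γ.map π).Normal := Subgroup.Normal.map inferInstance π hsurj
  refine vn_hall (Γ.map π) (c := c) ?_ ?_
  · rw [← Subgroup.map_lowerCentralSeries, Subgroup.map_eq_bot_iff, hπ, QuotientGroup.ker_mk']
    exact hΓ
  · -- the surjection
    set φ : G →* (G ⧸ B) ⧸ ⁅Γ.map π, Γ.map π⁆ := (QuotientGroup.mk' _).comp π with hφ
    have hφs : Function.Surjective φ := (QuotientGroup.mk'_surjective _).comp hsurj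
    have hk : ∀ a ∈ ⁅Γ, Γ⁆ ⊔ B, φ a = 1 := by
      have h1 : ⁅Γ, Γ⁆ ⊔ B ≤ φ.ker := by
        refine sup_le ?_ ?_
        · intro a ha
          rw [MonoidHom.mem_ker]
          refine (QuotientGroup.eq_one_iff _).2 ?_
          rw [← Subgroup.map_commutator]
          exact mem_map_of_mem _ ha
        · intro a ha
          have h2 : π a = 1 := (QuotientGroup.eq_one_iff _).2 ha
          rw [MonoidHom.mem_ker, hφ, MonoidHom.comp_apply, h2, map_one]
      exact fun a ha => h1 ha
    obtain ⟨N, hN, hNf⟩ := hQ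
    obtain ⟨k, hk'⟩ := (isNilpotent_iff_lowerCentralSeries N).1 hN
    set ψ : (G ⧸ (⁅Γ, Γ⁆ ⊔ B)) →* (G ⧸ B) ⧸ ⁅Γ.map π, Γ.map π⁆ := QuotientGroup.lift _ φ hk with hψ
    have hψs : Function.Surjective ψ := by
      intro y
      obtain ⟨g, rfl⟩ := hφs y
      exact ⟨(g : G ⧸ (⁅Γ, Γ⁆ ⊔ B)), rfl⟩
    refine ⟨N.map ψ, (isNilpotent_iff_lowerCentralSeries _).2 ⟨k, ?_⟩, ?_⟩
    · rw [← Subgroup.map_lowerCentralSeries, hk', Subgroup.map_bot]
    · exact ⟨ne_zero_of_dvd_ne_zero hNf.index_ne_zero (index_map_dvd N hψs)⟩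

end Pool.Agent.Helper39K9.CD
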