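import Mathlib
import Pool.Agent.Helper39K9.CD.Core
import Pool.Agent.Helper39K9.CD.Hall

/-!
# One nilpotent factor: the step
-/

set_option autoImplicit false

namespace Pool.Agent.Helper39K9.CD

open Pool.Agent.Y552.CT Pool.Agent.Y552.CP
open Subgroup Polynomial
open scoped commutatorElement Pointwise

universe u v

variable {G : Type u} [Group G]

section factor

variable (A B : Subgroup G) [hAn : A.Normal] [hBn : B.Normal]

/-- the abelianization of `A / B` -/
abbrev Fab : Type u := Additive (Abelianization (A ⧸ B.subgroupOf A))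

/-- the projection -/
def pr : A →* Abelianization (A ⧸ B.subgroupOf A) :=
  Abelianization.of.comp (QuotientGroup.mk' (B.subgroupOf A))

omit hAn in
lemma pr_surj : Function.Surjective (pr A B) := by
  intro y
  obtain ⟨z, rfl⟩ := QuotientGroup.mk_surjective y
  obtain ⟨a, rfl⟩ := QuotientGroup.mk_surjective z
  exact ⟨a, rfl⟩

omit hAn in
lemma pr_ker {a : A} (h : pr A B a = 1) : (a : G) ∈ ⁅A, A⁆ ⊔ B := by
  have h1 : QuotientGroup.mk' (B.subgroupOf A) a ∈ commutator (A ⧸ B.subgroupOf A) :=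
    (QuotientGroup.eq_one_iff _).1 h
  have h2 : commutator (A ⧸ B.subgroupOf A) =
      (commutator A).map (QuotientGroup.mk' (B.subgroupOf A)) := by
    rw [_root_.commutator_def, _root_.commutator_def, Subgroup.map_commutator,
      ← MonoidHom.range_eq_map, MonoidHom.range_eq_top.2 (QuotientGroup.mk'_surjective _)]
  rw [h2] at h1
  obtain ⟨c, hc, hca⟩ := h1
  have h3 : c⁻¹ * a ∈ B.subgroupOf A := QuotientGroup.eq.1 hca
  have h4 : (c : G) ∈ ⁅A, A⁆ := by
    have h5 : (c : G) ∈ (commutator A).map A.subtype := mem_map_of_mem _ hc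
    rw [Subgroup.map_subtype_commutator] at h5
    exact h5
  have h6 : (a : G) = c * ((c⁻¹ * a : A) : G) := by
    rw [Subgroup.coe_mul, Subgroup.coe_inv, mul_inv_cancel_left]
  rw [h6]
  exact mul_mem (mem_sup_left h4) (mem_sup_right h3)

/-- pull back of functionals -/
noncomputable def pb : (Fab A B →+ ℂ) →ₗ[ℂ] (Additive A →+ ℂ) where
  toFun f := f.comp (MonoidHom.toAdditive (pr A B))
  map_add' _ _ := rfl
  map_smul' _ _ := rfl

omit hAn in
lemma pb_apply (f : Fab A B →+ ℂ) (a : A) :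
    pb A B f (Additive.ofMul a) = f (Additive.ofMul (pr A B a)) := rfl

omit hAn in
lemma pb_inj : Function.Injective (pb A B) := by
  intro f g h
  refine AddMonoidHom.ext fun b => ?_
  obtain ⟨a, ha⟩ := pr_surj A B (Additive.toMul b)
  have h1 : b = Additive.ofMul (pr A B a) := by rw [ha]; rfl
  rw [h1]
  exact DFunLike.congr_fun h (Additive.ofMul a)

omit hAn in
lemma pb_mem (f : Fab A B →+ ℂ) : pb A B f ∈ hom A B := by
  intro a ha
  rw [pb_apply]
  have h1 : QuotientGroup.mk' (B.subgroupOf A) a = 1 := (QuotientGroup.eq_one_iff _).2 ha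
  have h2 : pr A B a = 1 := by
    show Abelianization.of (QuotientGroup.mk' (B.subgroupOf A) a) = 1
    rw [h1, map_one]
  rw [h2, ofMul_one, map_zero]

omit hAn in
lemma pb_range {f : Additive A →+ ℂ} (hf : f ∈ hom A B) : ∃ g, pb A B g = f := by
  let F : A →* Multiplicative ℂ := AddMonoidHom.toMultiplicativeRight f
  have hF : ∀ a ∈ B.subgroupOf A, F a = 1 := by
    intro a ha
    exact congrArg Multiplicative.ofAdd (hf a ha)
  refine ⟨AddMonoidHom.toMultiplicativeRight.symm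
      (Abelianization.lift (QuotientGroup.lift (B.subgroupOf A) F hF)), ?_⟩
  ext a
  rfl

/-- conjugation on `B.subgroupOf A` -/
lemma cj_le (t : G) : B.subgroupOf A ≤
    (B.subgroupOf A).comap (MulAut.conjNormal t : A ≃* A).toMonoidHom := by
  intro a ha
  show ((MulAut.conjNormal t a : A) : G) ∈ B
  rw [MulAut.conjNormal_apply]
  exact hBn.conj_mem _ ha _

/-- conjugation on the abelianization -/
noncomputable def cjq (t : G) : Fab A B →+ Fab A B :=
  MonoidHom.toAdditive (Abelianization.map (QuotientGroup.map (B.subgroupOf A) (B.subgroupOf A)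
    (MulAut.conjNormal t : A ≃* A).toMonoidHom (cj_le A B t)))

lemma ac_pb (t : G) (f : Fab A B →+ ℂ) : ac A t (pb A B f) = pb A B (f.comp (cjq A B t⁻¹)) := by
  ext a
  rfl

variable {A B}

lemma deg_le {m : ℕ} (hrk : Module.rank ℤ (Fab A B) ≤ (m : Cardinal.{u})) {t : G} {x : ℂ}
    {f : Additive A →+ ℂ} (hf : f ∈ hom A B) (hf0 : f ≠ 0) (he : ac A t f = x • f) :
    ∃ p : ℤ[X], p ≠ 0 ∧ p.natDegree ≤ m ∧ aeval x p = 0 := by
  obtain ⟨hfd, hdim, hker, hpol⟩ := Pool.Agent.Y809.CT.rk (Fab A B) m hrk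
  obtain ⟨f', rfl⟩ := pb_range A B hf
  obtain ⟨p, hp0, hpd, hp⟩ := hpol (cjq A B t⁻¹)
  refine ⟨p, hp0, hpd, hp x f' ?_ ?_⟩
  · intro h0
    rw [h0, map_zero] at hf0
    exact hf0 rfl
  · intro b
    rw [ac_pb, ← map_smul] at he
    have h1 := pb_inj A B he
    exact DFunLike.congr_fun h1 b

omit hAn in
lemma hom_fd {m : ℕ} (hrk : Module.rank ℤ (Fab A B) ≤ (m : Cardinal.{u})) :
    FiniteDimensional ℂ (hom A B) ∧ Module.finrank ℂ (hom A B) ≤ m := by
  obtain ⟨hfd, hdim, -, -⟩ := Pool.Agent.Y809.CT.rk (Fab A B) m hrk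
  have h1 : hom A B = LinearMap.range (pb A B) := by
    ext f
    constructor
    · intro hf
      exact pb_range A B hf
    · rintro ⟨g, rfl⟩
      exact pb_mem A B g
  rw [h1]
  exact ⟨inferInstance, (LinearMap.finrank_range_le _).trans hdim⟩

/-- the elements killed by all functionals are torsion modulo `[A, A] B` -/
theorem vn_of_tm {m : ℕ} (hrk : Module.rank ℤ (Fab A B) ≤ (m : Cardinal.{u}))
    (htor : {b : Fab A B | ∃ n : ℕ, 0 < n ∧ n • b = 0}.Finite)
    (hT : (Tm A (hom A B)).Normal) (h : Group.IsVirtuallyNilpotent (G ⧸ Tm A (hom A B))) :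
    Group.IsVirtuallyNilpotent (G ⧸ (⁅A, A⁆ ⊔ B)) := by
  classical
  obtain ⟨-, -, hker, -⟩ := Pool.Agent.Y809.CT.rk (Fab A B) m hrk
  set D' : Subgroup G := ⁅A, A⁆ ⊔ B with hD'
  have hfinT : Finite ((Tm A (hom A B)).map (QuotientGroup.mk' D')) := by
    have h1 : ∀ b : Fab A B, ∃ g : G ⧸ D', ∀ a : A,
        Additive.ofMul (pr A B a) = b → QuotientGroup.mk' D' (a : G) = g := by
      intro b
      obtain ⟨a, ha⟩ := pr_surj A B (Additive.toMul b)
      refine ⟨QuotientGroup.mk' D' (a : G), fun a' ha' => ?_⟩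
      have h2 : pr A B (a'⁻¹ * a) = 1 := by
        rw [map_mul, map_inv, ha, ← ha']
        exact inv_mul_cancel _
      have h3 := pr_ker A B h2
      exact QuotientGroup.eq.2 h3
    choose F hF using h1
    have h2 : (((Tm A (hom A B)).map (QuotientGroup.mk' D') : Subgroup (G ⧸ D')) :
        Set (G ⧸ D')) ⊆ F '' {b | ∃ n : ℕ, 0 < n ∧ n • b = 0} := by
      rintro _ ⟨a, ⟨ha, ha'⟩, rfl⟩
      refine ⟨Additive.ofMul (pr A B ⟨a, ha⟩), ?_, (hF _ ⟨a, ha⟩ rfl).symm⟩
      apply hker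
      intro f
      exact ha' (pb A B f) (pb_mem A B f)
    exact ((htor.image F).subset h2).to_subtype
  have hTn : ((Tm A (hom A B)).map (QuotientGroup.mk' D')).Normal :=
    hT.map _ (QuotientGroup.mk'_surjective D')
  refine vn_of_finite ((Tm A (hom A B)).map (QuotientGroup.mk' D')) hfinT ?_
  let φ : G →* (G ⧸ D') ⧸ ((Tm A (hom A B)).map (QuotientGroup.mk' D')) :=
    (QuotientGroup.mk' _).comp (QuotientGroup.mk' D')
  have hφ : Function.Surjective φ :=
    (QuotientGroup.mk'_surjective _).comp (QuotientGroup.mk'_surjective D')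
  have hk : ∀ a ∈ Tm A (hom A B), φ a = 1 := by
    intro a ha
    exact (QuotientGroup.eq_one_iff _).2 (mem_map_of_mem _ ha)
  refine vn_of_surj (φ := QuotientGroup.lift (Tm A (hom A B)) φ hk) ?_ h
  intro y
  obtain ⟨g, rfl⟩ := hφ y
  exact ⟨(g : G ⧸ Tm A (hom A B)), rfl⟩

/-- the eigenvalues of `t` on `Hom (A/B, ℂ)` -/
def Eig (A B : Subgroup G) [A.Normal] (t : G) (x : ℂ) : Prop :=
  ∃ f ∈ hom A B, f ≠ 0 ∧ act A t f = x • f

/-- **the step for a nilpotent factor** -/
theorem fac_step (S : Set G) (hfin : S.Finite) (hgen : closure S = ⊤) {c : ℕ}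
    (hnil : A.lowerCentralSeries c ≤ B) {m : ℕ}
    (hrk : Module.rank ℤ (Fab A B) ≤ (m : Cardinal.{u}))
    (htor : {b : Fab A B | ∃ n : ℕ, 0 < n ∧ n • b = 0}.Finite) {n D : ℕ} (hD1 : 1 ≤ D)
    (hs : SmallIrr A B n) (hsol : ∃ k, derivedSeries G k ≤ A)
    (hD : Jp n ≤ D ∨ (n ≤ D ∧ derivedSeries G 2 ≤ A))
    (hQ : Group.IsVirtuallyNilpotent (G ⧸ A)) :
    Group.IsVirtuallyNilpotent (G ⧸ B) ∨ Alt S D (Eig A B) := by
  obtain ⟨hfd, -⟩ := hom_fd hrk
  have hT : (Tm A (hom A B)).Normal := Tm_normal (hom_st A B)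
  rcases step5 S hfin hgen hfd hQ hT hD1 hs hsol hD (P := Eig A B)
    (fun t χ f hf hf0 he => ⟨f, hf, hf0, he⟩) with h | h
  · exact Or.inl (vn_hall_rel A B hnil (vn_of_tm hrk htor hT h))
  · exact Or.inr h

end factor

end Pool.Agent.Helper39K9.CD
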