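import Mathlib
import Pool.Agent.Helper39K9.CD.Fac

/-!
# Series with nilpotent factors
-/

set_option autoImplicit false

namespace Pool.Agent.Helper39K9.CD

open Pool.Agent.Y552.CT Pool.Agent.Y552.CP
open Subgroup Polynomial
open scoped commutatorElement Pointwise
open Pool.Agent.W963.GE (TT TT_finite TT_gen rho_TT vn_of_sub MM base eta_ge log_base_ge MM_ge
  mm_dob)

universe u v

variable {G : Type u} [Group G]

/-- the conditions on a factor `A / B` -/
structure Fctr (A B : Subgroup G) [A.Normal] [B.Normal] (n : ℕ) : Prop where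
  le : B ≤ A
  nil : Group.IsNilpotent (A ⧸ B.subgroupOf A)
  rank : Module.rank ℤ (Additive (Abelianization (A ⧸ B.subgroupOf A))) < Cardinal.aleph0
  tors : {b : Additive (Abelianization (A ⧸ B.subgroupOf A)) |
    ∃ k : ℕ, 0 < k ∧ k • b = 0}.Finite
  irr : SmallIrr A B n

lemma lcs_le {A B : Subgroup G} [A.Normal] [B.Normal]
    (h : Group.IsNilpotent (A ⧸ B.subgroupOf A)) : ∃ c, A.lowerCentralSeries c ≤ B := by
  have h0 : Group.IsNilpotent (⊤ : Subgroup (A ⧸ B.subgroupOf A)) := by infer_instance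
  obtain ⟨c, hc⟩ := (isNilpotent_iff_lowerCentralSeries (⊤ : Subgroup (A ⧸ B.subgroupOf A))).1 h0
  refine ⟨c, ?_⟩
  have h1 : ((⊤ : Subgroup A).lowerCentralSeries c).map (QuotientGroup.mk' (B.subgroupOf A)) = ⊥ := by
    rw [Subgroup.map_lowerCentralSeries, ← MonoidHom.range_eq_map,
      MonoidHom.range_eq_top.2 (QuotientGroup.mk'_surjective _), hc]
  rw [Subgroup.map_eq_bot_iff, QuotientGroup.ker_mk'] at h1
  have h2 : A.lowerCentralSeries c = ((⊤ : Subgroup A).lowerCentralSeries c).map A.subtype := by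
    rw [Subgroup.map_lowerCentralSeries, ← MonoidHom.range_eq_map, Subgroup.range_subtype]
  rw [h2]
  rintro _ ⟨a, ha, rfl⟩
  exact h1 ha

lemma alt_mono {S : Set G} {D : ℕ} {P Q : G → ℂ → Prop} (h : Alt S D P)
    (hPQ : ∀ t x, P t x → Q t x) : Alt S D Q := by
  rcases h with h | ⟨t, x, h1, h2⟩
  · exact Or.inl h
  · exact Or.inr ⟨t, x, hPQ t x h1, h2⟩

/-- **series** -/
theorem ser (S : Set G) (hfin : S.Finite) (hgen : closure S = ⊤) (F : ℕ → Subgroup G)
    [∀ i, (F i).Normal] {l n D : ℕ} (hD1 : 1 ≤ D) (hsol : ∃ k, derivedSeries G k = ⊥)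
    (hF : ∀ i < l, Fctr (F i) (F (i + 1)) n)
    (hD : Jp n ≤ D ∨ (n ≤ D ∧ ∀ i < l, derivedSeries G 2 ≤ F i)) {P : G → ℂ → Prop}
    (hbase : Group.IsVirtuallyNilpotent (G ⧸ F 0) ∨ Alt S D P) :
    Group.IsVirtuallyNilpotent (G ⧸ F l) ∨
      Alt S D (fun t x => P t x ∨ ∃ i < l, Eig (F i) (F (i + 1)) t x) := by
  by_contra hcon
  rw [not_or] at hcon
  obtain ⟨hnv, hna⟩ := hcon
  have hb := hbase.resolve_right (fun h => hna (alt_mono h fun _ _ h => Or.inl h))
  obtain ⟨k, hk⟩ := hsol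
  have key : ∀ i ≤ l, Group.IsVirtuallyNilpotent (G ⧸ F i) := by
    intro i
    induction i with
    | zero => exact fun _ => hb
    | succ i ih =>
      intro hi
      have hf := hF i (by omega)
      obtain ⟨c, hc⟩ := lcs_le hf.nil
      obtain ⟨m, hm⟩ := Cardinal.lt_aleph0.1 hf.rank
      rcases fac_step S hfin hgen hc (m := m) hm.le hf.tors hD1 hf.irr
        ⟨k, by rw [hk]; exact bot_le⟩ (hD.imp_right (fun h => ⟨h.1, h.2 i (by omega)⟩))
        (ih (by omega)) with h | h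
      · exact h
      · exact absurd (alt_mono h fun t x h => Or.inr ⟨i, by omega, h⟩) hna
  exact hnv (key l le_rfl)

/-- from the quotient by the trivial subgroup -/
lemma vn_of_bot {N : Subgroup G} [N.Normal] (hN : N = ⊥)
    (h : Group.IsVirtuallyNilpotent (G ⧸ N)) : Group.IsVirtuallyNilpotent G := by
  have h3 : Function.Surjective (QuotientGroup.quotientBot (G := G)).toMonoidHom :=
    (QuotientGroup.quotientBot (G := G)).surjective
  exact vn_of_surj h3 (vn_quot_mono (T := N) (U := ⊥) hN.le h)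

/-- **passing to a subgroup of finite index** -/
theorem main1 {l n D q : ℕ} (hD1 : 1 ≤ D) (S : Set G) (hfin : S.Finite)
    (hgen : closure S = ⊤) (H : Subgroup G) (hH0 : H.index ≠ 0) (hHq : H.index ≤ q)
    (hsol : ∃ k, derivedSeries H k = ⊥) (F : ℕ → Subgroup H) [∀ i, (F i).Normal]
    (hF : ∀ i < l, Fctr (F i) (F (i + 1)) n)
    (hD : Jp n ≤ D ∨ (n ≤ D ∧ ∀ i < l, derivedSeries H 2 ≤ F i))
    (hbase : Group.IsVirtuallyNilpotent (H ⧸ F 0) ∨ derivedSeries H 2 ≤ F 0) :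
    Group.IsVirtuallyNilpotent (H ⧸ F l) ∨
    Real.log 2 / (4 * (2 * D - 1) * (2 * q - 1)) ≤ H746UG.rho S ∨
    ∃ x : ℂ, x ≠ 0 ∧ IsIntegral ℤ x ∧ IsIntegral ℤ x⁻¹ ∧ (∀ n > 0, x ^ n ≠ 1) ∧
      (Group.IsVirtuallyNilpotent (H ⧸ F 0) → ∃ i < l, ∃ t : H, Eig (F i) (F (i + 1)) t x) ∧
      Real.log (base (MM x)) / (4 * (2 * D - 1) * (2 * q - 1)) ≤ H746UG.rho S := by
  have hq : 1 ≤ q := by omega
  rcases S.eq_empty_or_nonempty with rfl | hne
  · left
    rw [Subgroup.closure_empty] at hgen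
    have hsub : Subsingleton G := Subgroup.subsingleton_iff.1 (subsingleton_of_bot_eq_top hgen)
    have hsub' : Subsingleton (H ⧸ F l) := by
      constructor
      intro a b
      obtain ⟨a, rfl⟩ := QuotientGroup.mk_surjective a
      obtain ⟨b, rfl⟩ := QuotientGroup.mk_surjective b
      rw [Subsingleton.elim a b]
    exact ⟨⊤, (isNilpotent_iff_lowerCentralSeries _).2 ⟨0, Subsingleton.elim _ _⟩, inferInstance⟩
  set T := TT S H q with hT
  have hTf : T.Finite := TT_finite S hfin H q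
  have hTg : closure T = ⊤ := TT_gen S hgen H hH0 hHq
  have hb : Group.IsVirtuallyNilpotent (H ⧸ F 0) ∨
      Alt T D (fun _ _ => ¬ Group.IsVirtuallyNilpotent (H ⧸ F 0)) := by
    by_cases hv : Group.IsVirtuallyNilpotent (H ⧸ F 0)
    · exact Or.inl hv
    · rcases met T hTf hTg hD1 with h | h
      · exact Or.inl (vn_quot_mono (hbase.resolve_left hv) h)
      · exact Or.inr (alt_mono h fun _ _ _ => hv)
  rcases ser T hTf hTg F hD1 hsol hF hD hb with h | h
  · exact Or.inl h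
  · right
    rcases alt_sub S hfin hne H hq h with h | ⟨t, x, h1, h0, h2, h3, h4, h5⟩
    · exact Or.inl h
    · refine Or.inr ⟨x, h0, h2, h3, h4, ?_, h5⟩
      intro hv
      rcases h1 with h1 | ⟨i, hi, h1⟩
      · exact absurd hv h1
      · exact ⟨i, hi, t, h1⟩

lemma deg_of_eig {A B : Subgroup G} [A.Normal] [B.Normal] {m : ℕ}
    (hrk : Module.rank ℤ (Fab A B) ≤ (m : Cardinal.{u})) {t : G} {x : ℂ}
    (hx : IsIntegral ℤ x) (h : Eig A B t x) : (minpoly ℤ x).natDegree ≤ m := by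
  obtain ⟨f, hf, hf0, he⟩ := h
  obtain ⟨p, hp0, hpd, hp⟩ := deg_le hrk hf hf0 he
  exact (natDegree_le_of_dvd (minpoly.isIntegrallyClosed_dvd hx hp) hp0).trans hpd

end Pool.Agent.Helper39K9.CD
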