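import Mathlib
import Pool.Agent.Helper39K9.CD.Ser
import Pool.Agent.R701.UG.Eqv

/-!
# The affine groups belong to the class
-/

set_option autoImplicit false

namespace Pool.Agent.Helper39K9.CD

open Pool.Agent.Y552.CT Pool.Agent.Y552.CP
open Subgroup Polynomial
open scoped commutatorElement Pointwise

universe u v

section comm

variable {G : Type u} [Group G]

/-- if `G / A` is abelian then irreducible spaces have dimension one -/
theorem small_of_comm {A B : Subgroup G} [A.Normal] [B.Normal] (h : commutator G ≤ A)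
    (hfd : FiniteDimensional ℂ (hom A B)) {n : ℕ} (hn : 1 ≤ n) : SmallIrr A B n := by
  rintro ⟨W, hW⟩
  refine ⟨W, hW, ?_⟩
  obtain ⟨hWle, hirr, _⟩ := hW
  have hWfd : FiniteDimensional ℂ W := Submodule.finiteDimensional_of_le hWle
  have hW : St (ac A) W := fun g f hf => hirr.1.2 g f hf
  have hnt : Nontrivial W := Submodule.nontrivial_iff_ne_bot.2 hirr.1.1
  have hA : ∀ a ∈ A, rX hW a = 1 := by
    intro a ha
    ext x
    rw [rX_coe, ac_of_mem' A a ha]
    rfl
  obtain ⟨v, hv0, hv⟩ := Pool.Agent.Y38.CT.common (rX hW) (⊤ : Subgroup G) (by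
    intro a _ b _
    have h1 : ⁅a, b⁆ ∈ commutator G := commutator_mem_commutator (mem_top _) (mem_top _)
    have h2 := hA _ (h h1)
    rw [← map_mul, ← map_mul]
    have e : a * b = ⁅a, b⁆ * (b * a) := by
      rw [commutatorElement_def]; group
    rw [e, map_mul, h2, one_mul]) _ ⊤ rfl (by exact top_ne_bot) (fun _ _ _ _ => Submodule.mem_top)
  have hv0' : (v : Additive A →+ ℂ) ≠ 0 := fun h => hv0 (Subtype.ext h)
  have h1 : Submodule.span ℂ {(v : Additive A →+ ℂ)} = W := by
    refine hirr.2 _ ?_ ⟨?_, ?_⟩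
    · rw [Submodule.span_singleton_le_iff_mem]
      exact v.2
    · rw [Ne, Submodule.span_singleton_eq_bot]
      exact hv0'
    · intro g f hf
      obtain ⟨c, rfl⟩ := Submodule.mem_span_singleton.1 hf
      obtain ⟨d, hd⟩ := hv g (mem_top g)
      have h2 : ac A g (v : Additive A →+ ℂ) = d • (v : Additive A →+ ℂ) := congrArg Subtype.val hd
      rw [act_eq, map_smul, h2]
      exact Submodule.smul_mem _ _ (Submodule.smul_mem _ _ (Submodule.mem_span_singleton_self _))
  rw [← h1, finrank_span_singleton hv0']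
  exact hn

lemma normal_of_comm {A : Subgroup G} (h : commutator G ≤ A) : A.Normal := by
  refine ⟨fun a ha g => ?_⟩
  have h1 : g * a * g⁻¹ = ⁅g, a⁆ * a := by
    rw [commutatorElement_def]; group
  rw [h1]
  exact mul_mem (h (commutator_mem_commutator (mem_top _) (mem_top _))) ha

end comm

section aff

open Pool.Agent.H746UG (AG AT AS)

variable (x : ℂ) (hx : x ≠ 0)

/-- the ring generated by the unit and its inverse -/
noncomputable def RR : Subalgebra ℤ ℂ := Algebra.adjoin ℤ {x, x⁻¹}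

lemma x_mem : x ∈ RR x := Algebra.subset_adjoin (Or.inl rfl)

lemma xinv_mem : x⁻¹ ∈ RR x := Algebra.subset_adjoin (Or.inr rfl)

lemma form (g : AG x hx) : ∃ α ∈ RR x, ∃ β ∈ RR x, α ≠ 0 ∧ α⁻¹ ∈ RR x ∧
    ∀ z, (g : Equiv.Perm ℂ) z = α * z + β := by
  obtain ⟨g, hg⟩ := g
  show ∃ α ∈ RR x, ∃ β ∈ RR x, α ≠ 0 ∧ α⁻¹ ∈ RR x ∧ ∀ z, g z = α * z + β
  induction hg using Subgroup.closure_induction with
  | mem y hy =>
    rcases hy with rfl | rfl
    · exact ⟨x, x_mem x, 0, zero_mem _, hx, xinv_mem x,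
        fun z => by rw [H746UG.affA_apply, add_zero]⟩
    · exact ⟨x, x_mem x, 1, one_mem _, hx, xinv_mem x, fun z => H746UG.affB_apply x hx z⟩
  | one => exact ⟨1, one_mem _, 0, zero_mem _, one_ne_zero, by rw [inv_one]; exact one_mem _,
      fun z => by simp⟩
  | mul g h _ _ hg hh =>
    obtain ⟨α, hα, β, hβ, hα0, hαi, h1⟩ := hg
    obtain ⟨γ, hγ, δ, hδ, hγ0, hγi, h2⟩ := hh
    refine ⟨α * γ, mul_mem hα hγ, α * δ + β, add_mem (mul_mem hα hδ) hβ, mul_ne_zero hα0 hγ0,
      by rw [mul_inv]; exact mul_mem hαi hγi, fun z => ?_⟩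
    rw [Equiv.Perm.mul_apply, h2, h1]; ring
  | inv g _ hg =>
    obtain ⟨α, hα, β, hβ, hα0, hαi, h1⟩ := hg
    refine ⟨α⁻¹, hαi, -α⁻¹ * β, mul_mem (neg_mem hαi) hβ, inv_ne_zero hα0,
      by rw [inv_inv]; exact hα, fun z => ?_⟩
    rw [Equiv.Perm.inv_eq_iff_eq, h1]
    field_simp
    ring

lemma RR_finite (h1 : IsIntegral ℤ x) (h2 : IsIntegral ℤ x⁻¹) :
    Module.Finite ℤ (Subalgebra.toSubmodule (RR x)) := by
  rw [Module.Finite.iff_fg]
  exact fg_adjoin_of_finite (Set.toFinite _) (by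
    rintro y (rfl | rfl)
    · exact h1
    · exact h2)

variable {K : Type u} [Group K] (φ : K →* AG x hx)

/-- the translations in `K` -/
def KA : Subgroup K := (AT x hx).comap φ

lemma KA_comm : commutator K ≤ KA x hx φ := by
  rw [_root_.commutator_def, Subgroup.commutator_le]
  intro g _ h _
  show φ ⁅g, h⁆ ∈ AT x hx
  rw [map_commutatorElement]
  exact H746UG.comm_le_AT x hx (commutator_mem_commutator (mem_top _) (mem_top _))

instance KA_normal : (KA x hx φ).Normal := normal_of_comm (KA_comm x hx φ)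

/-- the length of the translation -/
noncomputable def len : Additive (KA x hx φ) →+ ℂ where
  toFun a := ((φ ((Additive.toMul a : KA x hx φ) : K) : AG x hx) : Equiv.Perm ℂ) 0
  map_zero' := by
    show ((φ ((1 : KA x hx φ) : K) : AG x hx) : Equiv.Perm ℂ) 0 = 0
    rw [Subgroup.coe_one, map_one]
    rfl
  map_add' a b := by
    obtain ⟨β, hβ⟩ := (Additive.toMul a : KA x hx φ).2
    obtain ⟨γ, hγ⟩ := (Additive.toMul b : KA x hx φ).2
    show ((φ ((Additive.toMul a * Additive.toMul b : KA x hx φ) : K) : AG x hx) :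
      Equiv.Perm ℂ) 0 = _
    rw [Subgroup.coe_mul, map_mul, Subgroup.coe_mul, Equiv.Perm.mul_apply, hγ, hβ, hβ]
    ring

lemma len_inj (hφ : Function.Injective φ) : Function.Injective (len x hx φ) := by
  intro a b hab
  obtain ⟨β, hβ⟩ := (Additive.toMul a : KA x hx φ).2
  obtain ⟨γ, hγ⟩ := (Additive.toMul b : KA x hx φ).2
  have h1 : β = γ := by
    have h2 : ((φ ((Additive.toMul a : KA x hx φ) : K) : AG x hx) : Equiv.Perm ℂ) 0 =
      ((φ ((Additive.toMul b : KA x hx φ) : K) : AG x hx) : Equiv.Perm ℂ) 0 := hab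
    rw [hβ, hγ, zero_add, zero_add] at h2
    exact h2
  apply Additive.toMul.injective
  apply Subtype.ext
  apply hφ
  apply Subtype.ext
  apply Equiv.ext
  intro z
  rw [hβ, hγ, h1]

lemma len_mem (a : Additive (KA x hx φ)) : len x hx φ a ∈ RR x := by
  obtain ⟨α, _, β, hβ, _, _, h⟩ := form x hx (φ ((Additive.toMul a : KA x hx φ) : K))
  show ((φ ((Additive.toMul a : KA x hx φ) : K) : AG x hx) : Equiv.Perm ℂ) 0 ∈ RR x
  rw [h, mul_zero, zero_add]
  exact hβ

theorem KA_factor (hφ : Function.Injective φ) (h1 : IsIntegral ℤ x) (h2 : IsIntegral ℤ x⁻¹)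
    {n : ℕ} (hn : 1 ≤ n) : Fctr (KA x hx φ) ⊥ n := by
  have hab : ∀ a b : KA x hx φ, a * b = b * a := by
    intro a b
    have h3 : Additive.ofMul a + Additive.ofMul b = Additive.ofMul b + Additive.ofMul a := by
      apply len_inj x hx φ hφ
      rw [map_add, map_add, add_comm]
    exact h3
  have hcm : ⁅KA x hx φ, KA x hx φ⁆ = ⊥ := by
    rw [eq_bot_iff, commutator_le]
    intro a ha b hb
    rw [mem_bot, commutatorElement_eq_one_iff_mul_comm]
    exact congrArg Subtype.val (hab ⟨a, ha⟩ ⟨b, hb⟩)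
  have hpi : Function.Injective (pr (KA x hx φ) ⊥) := by
    rw [injective_iff_map_eq_one]
    intro a ha
    have h3 := pr_ker (KA x hx φ) ⊥ ha
    rw [hcm, sup_bot_eq, mem_bot] at h3
    exact Subtype.ext h3
  let _ : AddCommGroup (Additive (KA x hx φ)) :=
    { (inferInstance : AddGroup (Additive (KA x hx φ))) with
      add_comm := fun a b => hab a b }
  have hRf := RR_finite x h1 h2
  have hfinA : Module.Finite ℤ (Additive (KA x hx φ)) := by
    let L : Additive (KA x hx φ) →+ Subalgebra.toSubmodule (RR x) :=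
      { toFun := fun a => ⟨len x hx φ a, len_mem x hx φ a⟩
        map_zero' := Subtype.ext (map_zero (len x hx φ))
        map_add' := fun a b => Subtype.ext (map_add (len x hx φ) a b) }
    refine Module.Finite.of_injective L.toIntLinearMap ?_
    intro a b hab'
    exact len_inj x hx φ hφ (congrArg Subtype.val hab')
  have hfin : Module.Finite ℤ (Fab (KA x hx φ) ⊥) := by
    let L : Additive (KA x hx φ) →+ Fab (KA x hx φ) ⊥ := MonoidHom.toAdditive (pr (KA x hx φ) ⊥)
    refine Module.Finite.of_surjective L.toIntLinearMap ?_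
    intro b
    obtain ⟨a, ha⟩ := pr_surj (KA x hx φ) ⊥ (Additive.toMul b)
    exact ⟨Additive.ofMul a, congrArg Additive.ofMul ha⟩
  have hrk : Module.rank ℤ (Fab (KA x hx φ) ⊥) < Cardinal.aleph0 := Module.rank_lt_aleph0 ℤ _
  obtain ⟨m, hm⟩ := Cardinal.lt_aleph0.1 hrk
  refine ⟨bot_le, ?_, hrk, ?_, small_of_comm (KA_comm x hx φ) (hom_fd (m := m) hm.le).1 hn⟩
  · let _ : CommGroup (KA x hx φ ⧸ (⊥ : Subgroup K).subgroupOf (KA x hx φ)) :=
      { (inferInstance : Group (KA x hx φ ⧸ (⊥ : Subgroup K).subgroupOf (KA x hx φ))) with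
        mul_comm := by
          intro a b
          obtain ⟨a, rfl⟩ := QuotientGroup.mk_surjective a
          obtain ⟨b, rfl⟩ := QuotientGroup.mk_surjective b
          rw [← QuotientGroup.mk_mul, ← QuotientGroup.mk_mul, hab] }
    exact CommGroup.isNilpotent
  · refine (Set.finite_singleton (0 : Fab (KA x hx φ) ⊥)).subset ?_
    rintro b ⟨k, hk, hb⟩
    obtain ⟨a, ha⟩ := pr_surj (KA x hx φ) ⊥ (Additive.toMul b)
    have h3 : pr (KA x hx φ) ⊥ (a ^ k) = 1 := by
      rw [map_pow, ha]
      exact hb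
    have h4 : a ^ k = 1 := hpi (by rw [h3, map_one])
    have h5 : k • Additive.ofMul a = 0 := h4
    have h6 : (k : ℂ) * len x hx φ (Additive.ofMul a) = 0 := by
      rw [← nsmul_eq_mul, ← map_nsmul, h5, map_zero]
    have h7 : len x hx φ (Additive.ofMul a) = 0 := by
      rcases mul_eq_zero.1 h6 with h | h
      · exact absurd (by exact_mod_cast h) hk.ne'
      · exact h
    have h8 : a = 1 := by
      have h9 : Additive.ofMul a = 0 := len_inj x hx φ hφ (by rw [h7, map_zero])
      exact h9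
    rw [h8, map_one] at ha
    exact congrArg Additive.ofMul ha.symm

end aff

end Pool.Agent.Helper39K9.CD
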