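import Mathlib
import Pool.Agent.Helper39K9.CD.AffC

/-!
# The class of groups with constituents of bounded degree and Lehmer's problem for units
-/

set_option autoImplicit false

namespace Pool.Agent.Helper39K9.CD

open Pool.Agent.Y552.CT Pool.Agent.Y552.CP
open Subgroup Polynomial
open scoped commutatorElement Pointwise
open Pool.Agent.W963.GE (MM base eta_ge log_base_ge MM_ge eta_le mm_dob)

universe u v

/-- a series with nilpotent factors -/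
structure Srs {H : Type u} [Group H] (n l : ℕ) (F : ℕ → Subgroup H) [∀ i, (F i).Normal] : Prop where
  base : Group.IsVirtuallyNilpotent (H ⧸ F 0) ∨ derivedSeries H 2 ≤ F 0
  factor : ∀ i < l, Fctr (F i) (F (i + 1)) n

/-- **the main bounds** -/
theorem main2 : ∃ c : ℝ, 0 < c ∧
    ∀ (G : Type u) [Group G] (S : Set G) (H : Subgroup G) (q n l D : ℕ) (F : ℕ → Subgroup H)
      [∀ i, (F i).Normal],
      S.Finite → Subgroup.closure S = ⊤ → H.index ≠ 0 → H.index ≤ q → Group.IsSolvable H → 1 ≤ n →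
      Srs n l F → (Jp n ≤ D ∨ (n ≤ D ∧ ∀ i < l, derivedSeries H 2 ≤ F i)) →
        ((Group.IsVirtuallyNilpotent (H ⧸ F l) ∧ (F l = ⊥ → Group.IsVirtuallyNilpotent G)) ∨
          (Real.log 2 / (4 * ((2 * D - 1) * (2 * q - 1))) ≤ H746UG.rho S ∨
            ∃ x : ℂ, (x ≠ 0 ∧ IsIntegral ℤ x ∧ IsIntegral ℤ x⁻¹ ∧ ∀ n > 0, x ^ n ≠ 1) ∧
              (Group.IsVirtuallyNilpotent (H ⧸ F 0) →
                ∃ i < l, ∃ t : H, Eig (F i) (F (i + 1)) t x) ∧
              min 1 (Real.log (MM x)) / (32 * ((2 * D - 1) * (2 * q - 1))) ≤ H746UG.rho S) ∧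
          ∀ m : ℕ, 1 ≤ m → Group.IsVirtuallyNilpotent (H ⧸ F 0) →
            (∀ i < l, Module.rank ℤ (Fab (F i) (F (i + 1))) ≤ (m : Cardinal.{u})) →
            c / (D * q * Real.log (2 * m) ^ 3) ≤ H746UG.rho S) := by
  obtain ⟨c, hc, h⟩ := unc
  refine ⟨c, hc, ?_⟩
  intro G _ S H q n l D F _ hfin hgen hH0 hHq hsol hn hs hD
  have hD1 : 1 ≤ D := by
    rcases hD with hD | hD
    · exact (Jp_pos hn).trans hD
    · exact hn.trans hD.1
  have hq1 : 1 ≤ q := by omega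
  have hA : 0 < (2 * (D : ℝ) - 1) * (2 * q - 1) := by
    have h1 : (1 : ℝ) ≤ D := by exact_mod_cast hD1
    have h2 : (1 : ℝ) ≤ q := by exact_mod_cast hq1
    apply mul_pos <;> linarith
  rcases main1 hD1 S hfin hgen H hH0 hHq ((Group.isSolvable_def H).1 hsol) F hs.factor hD
    hs.base with h1 | h1 | ⟨x, h0, h1, h2, h3, h4, h5⟩
  · exact Or.inl ⟨h1, fun hl => Pool.Agent.W963.GE.vn_of_sub H hH0 (vn_of_bot hl h1)⟩
  · right
    rw [mul_assoc] at h1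
    exact ⟨Or.inl h1, fun m hm _ _ => h m D q _ hm hD1 hq1 (Or.inl h1)⟩
  · right
    rw [mul_assoc] at h5
    have h6 := mahler_of h1 hA h5
    refine ⟨Or.inr ⟨x, ⟨h0, h1, h2, h3⟩, h4, h6⟩, fun m hm hv hr => ?_⟩
    obtain ⟨i, hi, t, he⟩ := h4 hv
    exact h m D q _ hm hD1 hq1 (Or.inr ⟨x, h0, h1, h3, deg_of_eig (hr i hi) h1 he, h6⟩)

/-- the class -/
def Cls (n q : ℕ) (G : Type u) [Group G] : Prop :=
  ∃ H : Subgroup G, H.index ≠ 0 ∧ H.index ≤ q ∧ Group.IsSolvable H ∧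
    ∃ (l : ℕ) (F : ℕ → Subgroup H) (_ : ∀ i, (F i).Normal), Srs n l F ∧ F l = ⊥

/-- the gap for the class -/
def CGap (n q : ℕ) (c : ℝ) : Prop :=
  ∀ (G : Type) [Group G] (S : Set G), S.Finite → Subgroup.closure S = ⊤ → Cls n q G →
    Group.IsVirtuallyNilpotent G ∨ c ≤ H746UG.rho S

/-- Lehmer's problem for units -/
def LehU : Prop :=
  ∃ ε > 0, ∀ x : ℂ, (x ≠ 0 ∧ IsIntegral ℤ x ∧ IsIntegral ℤ x⁻¹ ∧ ∀ m > 0, x ^ m ≠ 1) → 1 + ε ≤ MM x

lemma lehU_of {c : ℝ} (hc : 0 < c) (h : ∀ x : ℂ, ∀ hx : x ≠ 0, IsIntegral ℤ x → IsIntegral ℤ x⁻¹ →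
    (∀ m > 0, x ^ m ≠ 1) → c ≤ H746UG.rho (H746UG.AS x hx)) : LehU := by
  refine ⟨Real.exp c - 1, by have := Real.add_one_lt_exp hc.ne'; linarith, ?_⟩
  rintro x ⟨hx, h1, h2, h3⟩
  have h4 := h x hx h1 h2 h3
  rw [H746UG.rho_AS x hx] at h4
  have h5 := h4.trans (eta_le x hx h1)
  have hM : 0 < MM x := zero_lt_one.trans_le (MM_ge x h1)
  have h6 := Real.exp_le_exp.2 h5
  rw [Real.exp_log hM] at h6
  linarith

theorem lehU_of_two {c : ℝ} (hc : 0 < c) (h : R701.UG.CTwo c) : LehU := by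
  refine lehU_of hc ?_
  intro x hx h1 h2 h3
  exact (h (H746UG.AG x hx) (H746UG.AS x hx) (H746UG.AS_finite x hx)
    (H746UG.AS_gen x hx) (H746UG.aff_metabelian x hx)).resolve_left (H746UG.aff_not_vn x hx h3)

theorem two_of_lehU (h : LehU) : ∃ c > 0, R701.UG.CTwo c := by
  obtain ⟨ε, hε, h⟩ := h
  obtain ⟨c, hc, h1⟩ := R701.UG.ck_of_lehm ⟨ε, hε, fun x hx _ => h x hx⟩ 1 le_rfl
  exact ⟨c, hc, R701.UG.two_of_ck h1⟩

/-- the affine groups are in the class -/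
theorem aff_cls (x : ℂ) (hx : x ≠ 0) (h1 : IsIntegral ℤ x) (h2 : IsIntegral ℤ x⁻¹) {n q : ℕ}
    (hn : 1 ≤ n) (hq : 1 ≤ q) : Cls n q (H746UG.AG x hx) := by
  have hsolG : Group.IsSolvable (H746UG.AG x hx) :=
    (Group.isSolvable_def _).2 ⟨2, H746UG.aff_metabelian x hx⟩
  let φ : (⊤ : Subgroup (H746UG.AG x hx)) →* H746UG.AG x hx := (⊤ : Subgroup _).subtype
  let F : ℕ → Subgroup (⊤ : Subgroup (H746UG.AG x hx)) :=
    fun i => if i = 0 then KA x hx φ else ⊥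
  have hF : ∀ i, (F i).Normal := by
    intro i
    by_cases hi : i = 0
    · have e : F i = KA x hx φ := if_pos hi
      rw [e]
      exact KA_normal x hx φ
    · have e : F i = ⊥ := if_neg hi
      rw [e]
      infer_instance
  refine ⟨⊤, ?_, ?_, ?_, 1, F, hF, ⟨?_, ?_⟩, rfl⟩
  · rw [Subgroup.index_top]; exact one_ne_zero
  · rw [Subgroup.index_top]; exact hq
  · infer_instance
  · right
    have h3 : derivedSeries (⊤ : Subgroup (H746UG.AG x hx)) 2 ≤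
        derivedSeries (⊤ : Subgroup (H746UG.AG x hx)) 1 := derivedSeries_antitone _ (by norm_num)
    rw [derivedSeries_one] at h3
    exact h3.trans (KA_comm x hx φ)
  · intro i hi
    obtain rfl : i = 0 := by omega
    exact KA_factor x hx φ (Subtype.val_injective) h1 h2 hn

theorem lehU_of_cls {n q : ℕ} (hn : 1 ≤ n) (hq : 1 ≤ q) {c : ℝ} (hc : 0 < c) (h : CGap n q c) :
    LehU := by
  refine lehU_of hc ?_
  intro x hx h1 h2 h3
  exact (h (H746UG.AG x hx) (H746UG.AS x hx) (H746UG.AS_finite x hx)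
    (H746UG.AS_gen x hx) (aff_cls x hx h1 h2 hn hq)).resolve_left (H746UG.aff_not_vn x hx h3)

theorem cls_of_lehU {n q : ℕ} (hn : 1 ≤ n) (hq : 1 ≤ q) (h : LehU) : ∃ c > 0, CGap n q c := by
  obtain ⟨ε, hε, h⟩ := h
  obtain ⟨c₀, _, hmain⟩ := main2.{0}
  set X : ℝ := (2 * (Jp n : ℝ) - 1) * (2 * q - 1) with hX
  have hXpos : 0 < X := by
    have h1 : (1 : ℝ) ≤ Jp n := by exact_mod_cast Jp_pos hn
    have h2 : (1 : ℝ) ≤ q := by exact_mod_cast hq
    rw [hX]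
    apply mul_pos <;> linarith
  have hl : 0 < Real.log (1 + ε) := Real.log_pos (by linarith)
  have hl2 : 0 < Real.log 2 := Real.log_pos (by norm_num)
  refine ⟨min (Real.log 2 / (4 * X)) (min 1 (Real.log (1 + ε)) / (32 * X)),
    lt_min (by positivity) (div_pos (lt_min one_pos hl) (by positivity)), ?_⟩
  rintro G _ S hS hgen ⟨H, hH0, hHq, hsol, l, F, hFn, hs, hl0⟩
  rcases hmain G S H q n l (Jp n) F hS hgen hH0 hHq hsol hn hs (Or.inl le_rfl) with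
    ⟨-, h1⟩ | ⟨h1 | ⟨x, hx, -, h1⟩, -⟩
  · exact Or.inl (h1 hl0)
  · exact Or.inr ((min_le_left _ _).trans h1)
  · right
    refine (min_le_right _ _).trans (le_trans ?_ h1)
    refine div_le_div_of_nonneg_right ?_ (by positivity)
    exact min_le_min le_rfl (Real.log_le_log (by linarith) (h x hx))

theorem equiv {n q : ℕ} (hn : 1 ≤ n) (hq : 1 ≤ q) :
    ((∃ c > 0, CGap n q c) ↔ ∃ c > 0, R701.UG.CTwo c) ∧ ((∃ c > 0, CGap n q c) ↔ LehU) := by
  refine ⟨⟨fun ⟨c, hc, h⟩ => two_of_lehU (lehU_of_cls hn hq hc h),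
    fun ⟨c, hc, h⟩ => cls_of_lehU hn hq (lehU_of_two hc h)⟩,
    ⟨fun ⟨c, hc, h⟩ => lehU_of_cls hn hq hc h, cls_of_lehU hn hq⟩⟩

end Pool.Agent.Helper39K9.CD
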